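import Pool.Agent.Lib.MP_bf776f_nt.SU.A
import Pool.Agent.Lib.MP_bf776f_nt.SU.ThmB
import Pool.Agent.Lib.MP_bf776f_nt.SU.ZE

/-! Function-field model: three points of the Carlitz exponential give transcendence degree at
least two. -/

namespace Pool.Agent.CSU.OldThree

/-- The Carlitz factorial `D_i = ∏_{l < i} (T^(q^i) - T^(q^l))`. -/
noncomputable def D {Ω : Type} [NormedField Ω] (q : ℕ) (T : Ω) (i : ℕ) : Ω :=
  ∏ l ∈ Finset.range i, (T ^ q ^ i - T ^ q ^ l)

/-- The Carlitz exponential `e(z) = ∑ z^(q^i) / D_i`. -/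
noncomputable def ex {Ω : Type} [NormedField Ω] (q : ℕ) (T z : Ω) : Ω :=
  ∑' i : ℕ, z ^ q ^ i / D q T i

/-- The rational function field `K = F(T)`. -/
def K (F : Type) {Ω : Type} [Field F] [NormedField Ω] [Algebra F Ω] (T : Ω) : Subfield Ω :=
  (IntermediateField.adjoin F {T}).toSubfield

/-- The completion `K_∞ = F((1/T))`: the closure of `F(T)`. -/
def Kinf (F : Type) {Ω : Type} [Field F] [NormedField Ω] [Algebra F Ω] (T : Ω) : Subfield Ω :=
  (K F T).topologicalClosure

open Pool.Agent.CSU in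
theorem result (F Ω : Type) [Field F] [Fintype F] [NormedField Ω] [IsUltrametricDist Ω]
    [CompleteSpace Ω] [Algebra F Ω] (T : Ω) (hT : 1 < ‖T‖) (u : Fin 3 → Ω)
    (hu : ∀ i, IsAlgebraic (Kinf F T) (u i)) (hi : LinearIndependent (K F T) u) :
    ∃ a ∈ Set.range u ∪ Set.range fun i => ex (Fintype.card F) T (u i),
      ∃ b ∈ Set.range u ∪ Set.range fun i => ex (Fintype.card F) T (u i),
        AlgebraicIndependent (K F T) ![a, b] :=
  thmB thmA (b0 (core int sieS) zeh zev an jet horn) F Ω T u hT hu hi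

end Pool.Agent.CSU.OldThree
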