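import Pool.Agent.Lib.MP_bf776f_nt.SU.A
import Pool.Agent.Lib.MP_bf776f_nt.SU.Horn
import Pool.Agent.Lib.MP_0370b2_nt.S2.An4
import Pool.Agent.Lib.MP_0370b2_nt.S2.Cls
import Pool.Agent.Lib.MP_0370b2_nt.S2.Cnt
import Pool.Agent.Lib.MP_0370b2_nt.S2.Core
import Pool.Agent.Lib.MP_0370b2_nt.S2.Aux2
import Pool.Agent.Lib.MP_0370b2_nt.S2.Fix
import Pool.Agent.Lib.MP_0370b2_nt.S2.Hen
import Pool.Agent.Lib.MP_0370b2_nt.S2.Int4
import Pool.Agent.Lib.MP_0370b2_nt.S2.Jet2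
import Pool.Agent.Lib.MP_0370b2_nt.S2.Min
import Pool.Agent.Lib.MP_0370b2_nt.S2.Slo
import Pool.Agent.Lib.MP_0370b2_nt.S2.Small
import Pool.Agent.Lib.MP_0370b2_nt.S2.Tay
import Pool.Agent.Lib.MP_0370b2_nt.S2.Wei
import Pool.Agent.Lib.MP_0370b2_nt.S2.ZE2

/-! Function-field model: two points of the Carlitz exponential give transcendence degree at
least two. -/

namespace Pool.Agent.Old.MP_0370b2_nt.SchanuelTwo

/-- The Carlitz factorial `D_i = ∏_{l < i} (T^(q^i) - T^(q^l))`. -/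
noncomputable def D {Ω : Type} [NormedField Ω] (q : ℕ) (T : Ω) (i : ℕ) : Ω :=
  ∏ l ∈ Finset.range i, (T ^ q ^ i - T ^ q ^ l)

/-- The Carlitz exponential `e(z) = ∑ z^(q^i) / D_i`. -/
noncomputable def ex {Ω : Type} [NormedField Ω] (q : ℕ) (T z : Ω) : Ω :=
  ∑' i : ℕ, z ^ q ^ i / D q T i

/-- The rational function field `K = F(T)`. -/
def K (F : Type) {Ω : Type} [Field F] [NormedField Ω] [Algebra F Ω] (T : Ω) : Subfield Ω :=
  (IntermediateField.adjoin F {T}).toSubfield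

open Pool.Agent.CSU Pool.Agent.CSU.Q2 in
theorem result (F Ω : Type) [Field F] [Fintype F] [NormedField Ω] [IsUltrametricDist Ω]
    [CompleteSpace Ω] [Algebra F Ω] (T : Ω) (hT : 1 < ‖T‖) (u : Fin 2 → Ω)
    (hi : LinearIndependent (K F T) u) :
    ∃ a ∈ Set.range u ∪ Set.range fun i => ex (Fintype.card F) T (u i),
      ∃ b ∈ Set.range u ∪ Set.range fun i => ex (Fintype.card F) T (u i),
        AlgebraicIndependent (K F T) ![a, b] :=
  thmD thmA (c0 an4 tay hen jet2 (Q2.min fix (slo fix)) (ze2 (slo fix) (cls fix) cnt crt)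
    (coreQ aux2 (small2 int4)) horn) wei F Ω T u hT hi

end Pool.Agent.Old.MP_0370b2_nt.SchanuelTwo
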